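import Pool.Agent.Helper45.PQ.StN

/-!
# Project PQ, module NUA: arithmetic
-/

set_option autoImplicit false

open Module Classical

open scoped LinearAlgebra.Projectivization

namespace Pool.Agent.Helper94.PQ

open Pool.Agent.Helper45.PQ

universe u v

private theorem growth (h : ℕ) (hh : 5 ≤ h) :
    ((44 : ℝ) ^ h + 1) ^ 2 ≤ 0.55 * (3 ^ h) ^ 7 := by
  induction h, hh using Nat.le_induction with
  | base => norm_num
  | succ n hn ih =>
    have h1 : (44 : ℝ) ^ (n + 1) + 1 ≤ 44 * (44 ^ n + 1) := by rw [pow_succ]; linarith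
    have h2 : (0 : ℝ) ≤ 44 ^ (n + 1) + 1 := by positivity
    calc ((44 : ℝ) ^ (n + 1) + 1) ^ 2 ≤ (44 * (44 ^ n + 1)) ^ 2 := pow_le_pow_left₀ h2 h1 2
      _ = 1936 * (44 ^ n + 1) ^ 2 := by ring
      _ ≤ 1936 * (0.55 * (3 ^ n) ^ 7) := by linarith
      _ ≤ 2187 * (0.55 * (3 ^ n) ^ 7) := by
        have : (0 : ℝ) ≤ 0.55 * (3 ^ n) ^ 7 := by positivity
        linarith
      _ = 0.55 * (3 ^ (n + 1)) ^ 7 := by rw [pow_succ]; ring

private theorem quartic (e : ℕ) (he : 1 ≤ e) (q : ℝ) (h1 : 243 ≤ q) (h2 : (e : ℝ) ^ 2 + e + 1 ≤ q) :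
    (1 + (e : ℝ)) ^ 2 * (e + 2.00002) ^ 2 < 1.803 * e ^ 2 * q := by
  rcases le_or_gt e 14 with h | h
  · interval_cases e <;> norm_num at * <;> nlinarith
  · have h15 : (15 : ℝ) ≤ e := by exact_mod_cast h
    have h3 : 1.803 * (e : ℝ) ^ 2 * ((e : ℝ) ^ 2 + e + 1) ≤ 1.803 * e ^ 2 * q :=
      mul_le_mul_of_nonneg_left h2 (by positivity)
    refine lt_of_lt_of_le ?_ h3
    obtain ⟨x, hx⟩ : ∃ x : ℝ, (e : ℝ) = 15 + x := ⟨e - 15, by ring⟩
    have hx0 : 0 ≤ x := by linarith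
    rw [hx]
    nlinarith [pow_nonneg hx0 2, pow_nonneg hx0 3, pow_nonneg hx0 4]

private theorem main_ineq (A q : ℝ) (e : ℕ) (he : 1 ≤ e) (_ : 0 ≤ A) (hA2 : A ^ 2 ≤ 0.55 * q ^ 7)
    (h1 : 243 ≤ q) (h2 : (e : ℝ) ^ 2 + e + 1 ≤ q) :
    A * (1 + e) * (q ^ 2 * (2 + e) + 1) < e * (q - 1) * q ^ 5 := by
  have hq0 : 0 < q := by linarith
  have he0 : (1 : ℝ) ≤ e := by exact_mod_cast he
  have hQ := quartic e he q h1 h2
  apply lt_of_pow_lt_pow_left₀ 2 (by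
    have : 0 ≤ q - 1 := by linarith
    positivity)
  have s1 : q ^ 2 * (2 + e) + 1 ≤ q ^ 2 * (e + 2.00002) := by nlinarith
  have s2 : (q ^ 2 * (2 + e) + 1) ^ 2 ≤ (q ^ 2 * (e + 2.00002)) ^ 2 :=
    pow_le_pow_left₀ (by positivity) s1 2
  have s3 : 0.9917 * q ^ 2 ≤ (q - 1) ^ 2 := by nlinarith
  calc (A * (1 + e) * (q ^ 2 * (2 + e) + 1)) ^ 2
      = A ^ 2 * ((1 + e) ^ 2 * (q ^ 2 * (2 + e) + 1) ^ 2) := by ring
    _ ≤ (0.55 * q ^ 7) * ((1 + e) ^ 2 * (q ^ 2 * (e + 2.00002)) ^ 2) := by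
        apply mul_le_mul hA2 _ (by positivity) (by positivity)
        exact mul_le_mul_of_nonneg_left s2 (by positivity)
    _ = (0.55 * q ^ 11) * ((1 + e) ^ 2 * (e + 2.00002) ^ 2) := by ring
    _ < (0.55 * q ^ 11) * (1.803 * e ^ 2 * q) := by
        apply mul_lt_mul_of_pos_left hQ (by positivity)
    _ ≤ (e ^ 2 * q ^ 10) * (0.9917 * q ^ 2) := by
        have : 0 ≤ (e : ℝ) ^ 2 * q ^ 12 := by positivity
        nlinarith
    _ ≤ (e ^ 2 * q ^ 10) * (q - 1) ^ 2 := mul_le_mul_of_nonneg_left s3 (by positivity)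
    _ = (e * (q - 1) * q ^ 5) ^ 2 := by ring

theorem hNUA : StNUA := by
  intro h q e e₁ μ hh hq he hee h1 hμ
  rcases Nat.lt_or_ge h 5 with h5 | h5
  · have h4 : h = 4 := by omega
    subst h4
    have hq81 : q = 81 := by rw [hq]; norm_num
    subst hq81
    have he8 : e ≤ 8 := by
      by_contra hc
      have : 9 ≤ e := by omega
      have : 9 * 10 ≤ e₁ * (1 + e) := Nat.mul_le_mul (by omega) (by omega)
      omega
    have he40 : e₁ ≤ 40 := by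
      by_contra hc
      have : 41 * 2 ≤ e₁ * (1 + e) := Nat.mul_le_mul (by omega) (by omega)
      omega
    have hμ' : μ = 80 - e₁ := by omega
    subst hμ'
    interval_cases e <;> interval_cases e₁ <;> omega
  · have hq243 : 243 ≤ q := by
      rw [hq]
      calc 243 = 3 ^ 5 := by norm_num
        _ ≤ 3 ^ h := Nat.pow_le_pow_right (by norm_num) h5
    have hμ1 : 1 ≤ μ := by
      by_contra hc
      have : μ = 0 := by omega
      subst this
      have : e₁ * 2 ≤ e₁ * (1 + e) := Nat.mul_le_mul_left _ (by omega)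
      omega
    obtain ⟨ν, rfl⟩ : ∃ ν, μ = ν + 1 := ⟨μ - 1, by omega⟩
    obtain ⟨p, rfl⟩ : ∃ p, q = p + 1 := ⟨q - 1, by omega⟩
    simp only [Nat.add_sub_cancel]
    have hqR : ((p : ℝ) + 1) = 3 ^ h := by exact_mod_cast hq
    have hA2 := growth h h5
    rw [← hqR] at hA2
    have hp : (243 : ℝ) ≤ (p : ℝ) + 1 := by exact_mod_cast hq243
    have hee2 : (e : ℝ) ^ 2 + e + 1 ≤ (p : ℝ) + 1 := by
      have : e * (1 + e) ≤ e₁ * (1 + e) := Nat.mul_le_mul_right _ hee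
      have h3 : e * (1 + e) + 1 ≤ p + 1 := by omega
      have h4 : ((e * (1 + e) + 1 : ℕ) : ℝ) ≤ ((p + 1 : ℕ) : ℝ) := by exact_mod_cast h3
      push_cast at h4
      have h5 : (e : ℝ) ^ 2 + e + 1 = e * (1 + e) + 1 := by ring
      linarith
    have K := main_ineq ((44 : ℝ) ^ h + 1) ((p : ℝ) + 1) e he (by positivity) hA2 hp hee2
    have he0 : (1 : ℝ) ≤ e := by exact_mod_cast he
    have hν0 : (0 : ℝ) ≤ ν := Nat.cast_nonneg _
    have hp0 : (0 : ℝ) ≤ p := Nat.cast_nonneg _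
    have e1R : (e₁ : ℝ) * (1 + e) ≤ p := by
      have : e₁ * (1 + e) ≤ p := by omega
      exact_mod_cast this
    have μR : (ν : ℝ) + 1 + 1 + e₁ = p + 1 := by exact_mod_cast hμ
    -- (1 + e) μ ≥ e p
    have hM : (e : ℝ) * p ≤ (1 + e) * (ν + 1) := by
      have : (ν : ℝ) + 1 = p - e₁ := by linarith
      rw [this]
      have h6 : (1 + (e : ℝ)) * (p - e₁) = p + e * p - e₁ * (1 + e) := by ring
      linarith
    set A : ℝ := (44 : ℝ) ^ h + 1 with hA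
    have hA0 : 0 < A := by positivity
    have K2 : A * (1 + e) * (((p : ℝ) + 1) ^ 3 * (2 + e) + ((p : ℝ) + 1)) <
        (1 + e) * (ν + 1) * (((p : ℝ) + 1) ^ 3) ^ 2 := by
      calc A * (1 + e) * (((p : ℝ) + 1) ^ 3 * (2 + e) + ((p : ℝ) + 1))
          = (A * (1 + e) * (((p : ℝ) + 1) ^ 2 * (2 + e) + 1)) * ((p : ℝ) + 1) := by ring
        _ < (e * (((p : ℝ) + 1) - 1) * ((p : ℝ) + 1) ^ 5) * ((p : ℝ) + 1) :=
            mul_lt_mul_of_pos_right K (by linarith)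
        _ = (e * p) * (((p : ℝ) + 1) ^ 3) ^ 2 := by ring
        _ ≤ (1 + e) * (ν + 1) * (((p : ℝ) + 1) ^ 3) ^ 2 :=
            mul_le_mul_of_nonneg_right hM (by positivity)
    have K3 : A * (((p : ℝ) + 1) ^ 3 * (2 + e) + ((p : ℝ) + 1)) < (ν + 1) * (((p : ℝ) + 1) ^ 3) ^ 2 := by
      have h0 : (0 : ℝ) < 1 + e := by linarith
      have : (1 + (e : ℝ)) * (A * (((p : ℝ) + 1) ^ 3 * (2 + e) + ((p : ℝ) + 1))) <
          (1 + e) * ((ν + 1) * (((p : ℝ) + 1) ^ 3) ^ 2) := by linarith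
      exact lt_of_mul_lt_mul_left this h0.le
    have goalR : A * ((ν + 1) * ((p : ℝ) + 1) ^ 3 + ν * ((1 + e) * ((p : ℝ) + 1) ^ 3 + p)) <
        ((ν + 1) * ((p : ℝ) + 1) ^ 3) ^ 2 := by
      set X : ℝ := ((p : ℝ) + 1) ^ 3 with hX
      have hX0 : 0 < X := by positivity
      have t1 : (ν + 1) * X + ν * ((1 + e) * X + p) ≤ (ν + 1) * (X * (2 + e) + ((p : ℝ) + 1)) := by
        have t2 : 0 ≤ (1 + e) * X := by positivity
        have t3 : (ν + 1) * (X * (2 + e) + ((p : ℝ) + 1)) - ((ν + 1) * X + ν * ((1 + e) * X + p)) =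
            (1 + e) * X + ν + p + 1 := by ring
        linarith
      calc A * ((ν + 1) * X + ν * ((1 + e) * X + p))
          ≤ A * ((ν + 1) * (X * (2 + e) + ((p : ℝ) + 1))) := mul_le_mul_of_nonneg_left t1 hA0.le
        _ = (ν + 1) * (A * (X * (2 + e) + ((p : ℝ) + 1))) := by ring
        _ < (ν + 1) * ((ν + 1) * X ^ 2) := mul_lt_mul_of_pos_left K3 (by positivity)
        _ = ((ν + 1) * X) ^ 2 := by ring
    have fin : (((44 ^ h + 1) * ((ν + 1) * (p + 1) ^ 3 + ν * ((1 + e) * (p + 1) ^ 3 + p)) : ℕ) : ℝ) <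
        (((((ν + 1) * (p + 1) ^ 3) ^ 2 : ℕ)) : ℝ) := by
      push_cast
      exact goalR
    exact_mod_cast fin

end Pool.Agent.Helper94.PQ
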